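import Pool.Agent.D0H14.CS.Main

/-!
# Functions determined by content and singletons are reconstructible

For a finite set `A` and an arbitrary set `B`, every function `f : A^m → B` determined by content
and singletons is reconstructible when the arity `m` is large enough.
-/

open Function Pool.Agent.R795.Min
open Pool.Agent.Results.MP_75c0e8_co.WeakReconstruction

namespace Pool.Agent.Results.MP_75c0e8_co.Reconstructible

/-- `f`, of arity `n + 1`, is reconstructible: every function with the same deck as `f` is similar
to `f`. -/
def IsReconstructible {A B : Type} {n : ℕ} (f : (Fin (n + 1) → A) → B) : Prop :=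
  ∀ g : (Fin (n + 1) → A) → B, deck g = deck f → Similar g f

/-- For sets `A`, `B`: all functions `A^m → B` determined by content and singletons, of
sufficiently large arity `m = n + 1`, are reconstructible if and only if `A` is finite or `B` has
at most one element. -/
theorem result (A B : Type) [DecidableEq A] :
    (∃ N : ℕ, ∀ n : ℕ, N ≤ n → ∀ f : (Fin (n + 1) → A) → B, DetCS f → IsReconstructible f) ↔
      (Finite A ∨ Subsingleton B) := by
  constructor
  · rintro ⟨N, hN⟩
    by_contra hcon
    push Not at hcon
    obtain ⟨hA, hB⟩ := hcon
    have hB' : Nontrivial B := hB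
    have hA' : Infinite A := hA
    apply infinite_case (A := A) (B := B) (n := N)
    intro f hf g hg hdeck
    exact hN N le_rfl g hg f hdeck
  · rintro (hA | hB)
    · have := Fintype.ofFinite A
      exact ⟨2 * Pool.Agent.D0H14.CS.bnd (Fintype.card A), fun n hn f hf g hg =>
        Pool.Agent.D0H14.CS.reconstructible hn hf hg⟩
    · exact ⟨0, fun n _ f _ g _ => ⟨1, fun a => Subsingleton.elim _ _⟩⟩

end Pool.Agent.Results.MP_75c0e8_co.Reconstructible
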